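import Pool.Agent.Y264.AI.Top
import Pool.Agent.Results.MP_17c4bf_an.AsplundProduct

/-!
# Factors and continuous linear images of (weak) Asplund locally convex spaces

The questions: if `E × F` is Asplund (weak Asplund), must `E` be Asplund (weak Asplund)? The starting
files answer both in the negative and show that the factors are exactly the Fréchet (Gâteaux)
differentiability spaces. Here the same classes are shown to be stable under much more general
operations than projections onto factors, and they are described as classes of images:

* a Hausdorff locally convex space `E` is a Fréchet differentiability space if and only if `E × F`
  is Asplund for some `F`, if and only if there are an Asplund space `G` and a continuous linear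
  operator `T : G → E` which almost lifts bounded sets (every bounded set of `E` is contained in
  `T B' + U` with some bounded `B'`, for every neighbourhood `U` of zero; no openness, surjectivity
  or injectivity is required);
* `E` is a Gâteaux differentiability space if and only if `E × F` is weak Asplund for some `F`, if
  and only if there are a weak Asplund space `G` and a continuous linear operator `T : G → E` with
  dense range;
* these classes are larger than the classes of Asplund and of weak Asplund spaces: there is a factor
  of an Asplund space which is not even weak Asplund (negative answer to both questions).

In particular the Gâteaux differentiability spaces are exactly the continuous linear images of weak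
Asplund spaces, and a locally convex space with a dense subspace which is a Gâteaux differentiability
space is one itself.

Idea of the proof of the new part: second differences. If `f` is continuous and convex near `p = T x`
then, by convexity, the second difference of `f` at `p` in the direction `T h' + w` is at most the mean
of the second differences in the directions `2 T h'` and `2 w`; the first one is small if `f ∘ T` is
differentiable at `x`, and the second one is small because `f` is bounded above near `p` and `w` is in a
small neighbourhood of zero.
-/

set_option autoImplicit false

universe u

open H647R3.Fac Pool.Agent.Y264.AI

namespace Pool.Agent.Results.MP_17c4bf_an.FactorsAndImages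

theorem result :
    (∀ (E : Type u) [AddCommGroup E] [Module ℝ E] [TopologicalSpace E] [IsTopologicalAddGroup E]
      [ContinuousSMul ℝ E] [LocallyConvexSpace ℝ E] [T2Space E],
      [IsFDS E, AsplundFactor E, AsplundImage E].TFAE ∧
      [IsGDS E, WeakAsplundFactor E, WeakAsplundImage E].TFAE) ∧
    ∃ (E : Type) (_ : AddCommGroup E) (_ : Module ℝ E) (_ : TopologicalSpace E)
      (_ : IsTopologicalAddGroup E) (_ : ContinuousSMul ℝ E) (_ : LocallyConvexSpace ℝ E)
      (_ : T2Space E), AsplundFactor E ∧ ¬ IsWeakAsplund E := by
  refine ⟨fun E _ _ _ _ _ _ _ => ⟨main_f, main_g⟩, ?_⟩
  obtain ⟨E, a1, a2, a3, a4, a5, a6, a7, F, b1, b2, b3, b4, b5, b6, b7, h1, -, h2⟩ :=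
    Pool.Agent.Results.MP_17c4bf_an.AsplundProduct.result
  exact ⟨E, a1, a2, a3, a4, a5, a6, a7, ⟨F, b1, b2, b3, b4, b5, b6, b7, h1⟩, h2⟩

end Pool.Agent.Results.MP_17c4bf_an.FactorsAndImages
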